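import Pool.Agent.H833.EK.PlaneRes

/-!
# Voisin's conjecture for the double planes branched along a quintic and a line

Let `q` be a quintic form and `l` a linear form in three variables over an algebraically closed
field `k` of characteristic zero. No assumption is made on the singularities. The theorem proves
`∑ σ, sgn(σ) a_σ(1) × ⋯ × a_σ(n) = 0` in `CH₀(Sⁿ)_ℚ` for `n ≥ 2` and all zero-cycles `a_1, …, a_n` of
degree zero

* on the double plane `t² = q l` itself, and
* on every resolution `S` of it (`Geo.Resolves`) whose fibres are connected by chains of rational
  curves, such as the minimal resolution, a K3 surface, if `q l` has only simple singularities.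

For `n = 2` this says that `a × b = b × a`.

The proof. The lines through a common zero `p` of `q` and `l` give a fibration of the surface in
curves of genus one `y² = c₀ v⁴ + c₁ v³ w + ⋯ + c₄ w⁴`, where `c_j` is a form of degree `j + 2` on the
line. Its relative Jacobian is `Y² = X³ + a(u) X + b(u)` with `a` of degree `8` and `b` of degree `12`,
and the words `(x - o) × (x' - o) - (x' - o) × (x - o)` only depend on the images of `x` and `x'` in
it. For points `P_1 = (u_1, X_1, Y_1)` and `P_2 = (u_2, X_2, Y_2)` of the Jacobian put
`f_i(X) = X³ + a(u_i) X + b(u_i)`. The point `(X_1, X_2)` lies on the plane cubic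
`f_2(X_2) = λ f_1(X_1)`, `λ = (Y_2 / Y_1)²`, and the sums of the words over the three points of the
cubic on a line are constant. Hence the words factor through the Jacobian of the cubic,
`y² = 4 x³ - 12 a_1 a_2 x - (t + D_1 D_2 / t - 54 b_1 b_2)`, `t = D_1 λ`, `D_i = 4 a_i³ + 27 b_i²`,
which only depends on the set `{u_1, u_2}`. So they are determined by a point of a hypersurface of
degree `24` in the weighted projective space `P(1, 1, 1, 4, 6, 12)`. Through its general point there
is a rational curve (`13` unknowns, `12` equations, as `D_1 D_2` is a product of `24` linear forms on
the plane of the sets `{u_1, u_2}`). Where it meets the set `D_1 = 0` one of the two points lies on a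
singular fibre, which is rational, so that the word vanishes there, and hence everywhere.
-/

set_option autoImplicit false

namespace Pool.Agent.Results.MP_60b111_ag.QuinticLine

open Pool.Agent.H833.EK

/-- **Voisin's conjecture for double planes branched along a quintic and a line.** -/
theorem result {k : Type} [Field k] [CharZero k] [IsAlgClosed k]
    (q l : MvPolynomial (Fin 3) k) (hq : q.IsHomogeneous 5) (hl : l.IsHomogeneous 1)
    (n : ℕ) (hn : 2 ≤ n) :
    (dplane (q * l)).Voisin n ∧
      ∀ (S : Geo k) (π : Geo.Hom S (dplane (q * l))), Geo.Resolves π → S.Voisin n :=
  ⟨voisin_quintic_line hn hq hl, fun _ _ hπ => voisin_quintic_line_res hn hq hl hπ⟩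

end Pool.Agent.Results.MP_60b111_ag.QuinticLine
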